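import Mathlib

/-!
# MP_d51b1e_co, Q1: the average stopping time of the polynomial Collatz map over `F₂` is linear
-/

namespace Pool.Agent.Results.MP_d51b1e_co.LinearAverage

open Polynomial

/-- The Collatz map on `F₂[x]`: `f ↦ (x+1) f + 1` if `f(0) = 1` and `f ↦ f / x` if `f(0) = 0`
(`divX f` is the quotient of `f` by `X`: `X * divX f + C (f.coeff 0) = f`). -/
noncomputable def T (f : (ZMod 2)[X]) : (ZMod 2)[X] :=
  if f.coeff 0 = 1 then (X + 1) * f + 1 else f.divX

/-- The stopping time: the least `k` with `T^k f = 1`. -/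
noncomputable def tmin (f : (ZMod 2)[X]) : ℕ := sInf {k : ℕ | T^[k] f = 1}

/-- The average stopping time in degree `d`: the mean over the `2 ^ d` polynomials of degree
exactly `d`. -/
noncomputable def rho (d : ℕ) : ℝ :=
  (1 / 2 ^ d : ℝ) * ∑ᶠ f ∈ {f : (ZMod 2)[X] | f.degree = (d : WithBot ℕ)}, (tmin f : ℝ)

/-! ## Sums over bit lists -/

/-- Sum of `F (w ++ l)` over all bit lists `w` of length `n`. -/
def S {M : Type*} [AddCommMonoid M] : ℕ → List Bool → (List Bool → M) → M
  | 0, l, F => F l
  | n+1, l, F => S n l (fun w => F (false :: w) + F (true :: w))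

section S
variable {M : Type*} [AddCommMonoid M]

lemma S_zero (l : List Bool) (F : List Bool → M) : S 0 l F = F l := rfl
lemma S_succ (n : ℕ) (l : List Bool) (F : List Bool → M) :
    S (n+1) l F = S n l (fun w => F (false :: w) + F (true :: w)) := rfl

lemma S_add (n L : ℕ) (l : List Bool) (F : List Bool → M) :
    S (n + L) l F = S n l (fun w => S L w F) := by
  induction L generalizing F with
  | zero => rfl
  | succ L ih => rw [← add_assoc, S_succ, ih]; rfl

lemma S_congr (n : ℕ) (l : List Bool) (F G : List Bool → M)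
    (h : ∀ w : List Bool, w.length = n → F (w ++ l) = G (w ++ l)) : S n l F = S n l G := by
  induction n generalizing F G with
  | zero => exact h [] rfl
  | succ n ih =>
    rw [S_succ, S_succ]
    apply ih
    intro w hw
    have h1 := h (false :: w) (by simp [hw])
    have h2 := h (true :: w) (by simp [hw])
    simp only [List.cons_append] at h1 h2
    rw [h1, h2]

lemma S_sum {ι : Type*} (s : Finset ι) (n : ℕ) (l : List Bool) (F : ι → List Bool → M) :
    S n l (fun w => ∑ i ∈ s, F i w) = ∑ i ∈ s, S n l (F i) := by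
  induction n generalizing F with
  | zero => rfl
  | succ n ih =>
    rw [S_succ]
    simp only [← Finset.sum_add_distrib]
    rw [ih]
    rfl

lemma S_addf (n : ℕ) (l : List Bool) (F G : List Bool → M) :
    S n l (fun w => F w + G w) = S n l F + S n l G := by
  induction n generalizing F G with
  | zero => rfl
  | succ n ih =>
    rw [S_succ, S_succ, S_succ, ← ih]
    congr 1
    funext w
    exact add_add_add_comm _ _ _ _

end S

lemma S_smul (n : ℕ) (l : List Bool) (c : ℝ) (F : List Bool → ℝ) :
    S n l (fun w => c * F w) = c * S n l F := by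
  induction n generalizing F with
  | zero => rfl
  | succ n ih =>
    rw [S_succ, S_succ, ← ih]
    congr 1
    funext w
    ring

lemma S_const (n : ℕ) (l : List Bool) (c : ℝ) :
    S n l (fun _ => c) = 2 ^ n * c := by
  induction n generalizing c with
  | zero => simp [S_zero]
  | succ n ih =>
    rw [S_succ, ih]; ring

lemma S_mono (n : ℕ) (l : List Bool) (F G : List Bool → ℝ)
    (h : ∀ w : List Bool, w.length = n → F (w ++ l) ≤ G (w ++ l)) : S n l F ≤ S n l G := by
  induction n generalizing F G with
  | zero => exact h [] rfl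
  | succ n ih =>
    rw [S_succ, S_succ]
    apply ih
    intro w hw
    have h1 := h (false :: w) (by simp [hw])
    have h2 := h (true :: w) (by simp [hw])
    simp only [List.cons_append] at h1 h2
    linarith

/-! ## The dual field -/

/-- The column of bits above a list (inverse dynamics). -/
def C : List Bool → ℕ → Bool
  | [] => fun _ => true
  | (a :: l) => fun t => Nat.rec a (fun t ih => xor ih (C l (t+1))) t

lemma C_nil (t : ℕ) : C [] t = true := rfl
lemma C_zero (a : Bool) (l : List Bool) : C (a :: l) 0 = a := rfl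
lemma C_succ (a : Bool) (l : List Bool) (t : ℕ) :
    C (a :: l) (t+1) = xor (C (a :: l) t) (C l (t+1)) := rfl

lemma C_flip (l : List Bool) (t : ℕ) : C (true :: l) t = !(C (false :: l) t) := by
  induction t with
  | zero => rfl
  | succ t ih => rw [C_succ, C_succ, ih]; cases C (false :: l) t <;> cases C l (t+1) <;> rfl

lemma C_inf (l : List Bool) (k : ℕ) : ∃ t, k ≤ t ∧ C l t = true := by
  induction l generalizing k with
  | nil => exact ⟨k, le_refl _, rfl⟩
  | cons a l ih =>
    obtain ⟨t, ht, h1⟩ := ih (k+1)
    obtain ⟨s, rfl⟩ : ∃ s, t = s + 1 := ⟨t - 1, by omega⟩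
    have h2 := C_succ a l s
    rw [h1] at h2
    cases h3 : C (a :: l) s with
    | true => exact ⟨s, by omega, h3⟩
    | false => rw [h3] at h2; exact ⟨s+1, by omega, h2⟩

lemma C_inf' (a : Bool) (l : List Bool) (k : ℕ) : ∃ t, k ≤ t ∧ C (a :: l) t = false := by
  obtain ⟨t, ht, h1⟩ := C_inf l (k+1)
  obtain ⟨s, rfl⟩ : ∃ s, t = s + 1 := ⟨t - 1, by omega⟩
  have h2 := C_succ a l s
  rw [h1] at h2
  cases h3 : C (a :: l) s with
  | false => exact ⟨s, by omega, h3⟩
  | true => rw [h3] at h2; exact ⟨s+1, by omega, h2⟩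

/-- The dual path. -/
noncomputable def tau : List Bool → ℕ
  | [] => 0
  | (a :: l) => sInf {t | tau l ≤ t ∧ C (a :: l) t = false}

lemma tau_nil : tau [] = 0 := rfl

lemma tau_spec (a : Bool) (l : List Bool) :
    tau l ≤ tau (a :: l) ∧ C (a :: l) (tau (a :: l)) = false := by
  have h := C_inf' a l (tau l)
  exact Nat.sInf_mem (s := {t | tau l ≤ t ∧ C (a :: l) t = false}) h

lemma tau_le (a : Bool) (l : List Bool) (t : ℕ) (h1 : tau l ≤ t) (h2 : C (a :: l) t = false) :
    tau (a :: l) ≤ t := Nat.sInf_le (s := {t | tau l ≤ t ∧ C (a :: l) t = false}) ⟨h1, h2⟩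

lemma tau_append (w l : List Bool) : tau l ≤ tau (w ++ l) := by
  induction w with
  | nil => exact le_refl _
  | cons a w ih => exact ih.trans (tau_spec a (w ++ l)).1

/-- The zero run at the dual path. -/
noncomputable def r (l : List Bool) : ℕ := sInf {i | 1 ≤ i ∧ C l (tau l + i) = true}

lemma r_spec (l : List Bool) : 1 ≤ r l ∧ C l (tau l + r l) = true := by
  obtain ⟨t, ht, h1⟩ := C_inf l (tau l + 1)
  exact Nat.sInf_mem (s := {i | 1 ≤ i ∧ C l (tau l + i) = true})
    ⟨t - tau l, by omega, by rwa [show tau l + (t - tau l) = t by omega]⟩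

lemma r_lt (l : List Bool) (i : ℕ) (h1 : 1 ≤ i) (h2 : i < r l) : C l (tau l + i) = false := by
  by_contra h
  have h3 : C l (tau l + i) = true := by simpa using h
  exact absurd (Nat.sInf_le (s := {i | 1 ≤ i ∧ C l (tau l + i) = true}) ⟨h1, h3⟩) (by
    change ¬ (r l ≤ i); omega)

lemma tau_cons_false (a : Bool) (l : List Bool) (h : C (a :: l) (tau l) = false) :
    tau (a :: l) = tau l :=
  le_antisymm (tau_le a l _ le_rfl h) (tau_spec a l).1

lemma tau_cons_le (a : Bool) (l : List Bool) (h : C (a :: l) (tau l) = true) :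
    tau (a :: l) ≤ tau l + r l := by
  have key : ∀ i, i < r l → C (a :: l) (tau l + i) = true := by
    intro i
    induction i with
    | zero => intro _; exact h
    | succ i ih =>
      intro hi
      have h1 := ih (by omega)
      rw [← add_assoc, C_succ, h1, add_assoc, r_lt l (i+1) (by omega) hi]
      rfl
  have hr := r_spec l
  apply tau_le
  · omega
  · obtain ⟨j, hj⟩ : ∃ j, r l = j + 1 := ⟨r l - 1, by omega⟩
    have h1 := key j (by omega)
    rw [hj, ← add_assoc, C_succ, h1, add_assoc, ← hj, hr.2]
    rfl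

lemma tau_step (l : List Bool) : tau (false :: l) + tau (true :: l) ≤ 2 * tau l + r l := by
  have h := C_flip l (tau l)
  cases h1 : C (false :: l) (tau l) with
  | true =>
    rw [h1] at h
    have h2 := tau_cons_le false l h1
    have h3 := tau_cons_false true l h
    omega
  | false =>
    rw [h1] at h
    have h2 := tau_cons_le true l h
    have h3 := tau_cons_false false l h1
    omega

/-- The window event. -/
def W (L y : ℕ) (l : List Bool) : Prop := ∀ i < L, C l (y + i) = false

lemma W_cons (L y : ℕ) (a : Bool) (l : List Bool) :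
    W (L+1) y (a :: l) ↔ C (a :: l) y = false ∧ W L (y+1) l := by
  constructor
  · intro h
    refine ⟨h 0 (by omega), fun i hi => ?_⟩
    have h1 := h i (by omega)
    have h2 := h (i+1) (by omega)
    rw [← add_assoc, C_succ, h1] at h2
    rw [show y + 1 + i = y + i + 1 by omega]
    simpa using h2
  · rintro ⟨h1, h2⟩ i
    induction i with
    | zero => intro _; exact h1
    | succ i ih =>
      intro hi
      rw [← add_assoc, C_succ, ih (by omega)]
      have h3 := h2 i (by omega)
      rw [show y + 1 + i = y + i + 1 by omega] at h3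
      rw [h3]; rfl

lemma W_nil (L y : ℕ) : ¬ W (L+1) y [] := fun h => by
  have := h 0 (by omega)
  simp [C_nil] at this

open Classical in
lemma S_W (L y : ℕ) (l : List Bool) : S L l (fun w => if W L y w then (1:ℝ) else 0) = 1 := by
  induction L generalizing y with
  | zero =>
    rw [S_zero, if_pos]
    intro i hi
    omega
  | succ L ih =>
    rw [S_succ]
    refine Eq.trans ?_ (ih (y+1))
    congr 1
    funext w
    simp only [W_cons]
    have h := C_flip w y
    cases h1 : C (false :: w) y with
    | true => rw [h1] at h; rw [h]; simp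
    | false => rw [h1] at h; rw [h]; simp

lemma r_window (l : List Bool) (L : ℕ) (hl : l ≠ []) (h : L ≤ r l) : W L (tau l) l := by
  intro i hi
  rcases Nat.eq_zero_or_pos i with rfl | hi0
  · obtain ⟨a, l', rfl⟩ := List.exists_cons_of_ne_nil hl
    exact (tau_spec a l').2
  · exact r_lt l i hi0 (by omega)

lemma W_length (L y : ℕ) (l : List Bool) (h : W L y l) : L ≤ l.length := by
  induction l generalizing L y with
  | nil =>
    cases L with
    | zero => simp
    | succ L => exact absurd h (W_nil L y)
  | cons a l ih =>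
    cases L with
    | zero => simp
    | succ L =>
      have := ih L (y+1) ((W_cons L y a l).1 h).2
      simp only [List.length_cons]; omega

lemma r_le (l : List Bool) (hl : l ≠ []) : r l ≤ l.length :=
  W_length _ _ _ (r_window l (r l) hl le_rfl)

/-! ## The mean run length is bounded -/

open Classical in
lemma point (L D : ℕ) (hL : 1 ≤ L) (hD : 1 ≤ D) (l v : List Bool) (hv : v.length = L) :
    (if L ≤ r (v ++ l) then (1:ℝ) else 0) ≤
      ∑ i ∈ Finset.range D, (if W L (tau l + i) (v ++ l) then (1:ℝ) else 0) +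
        (1 / D : ℝ) * ((tau (v ++ l) : ℝ) - tau l) := by
  have hD' : (0:ℝ) < D := by exact_mod_cast hD
  have hmono : (tau l : ℝ) ≤ tau (v ++ l) := by exact_mod_cast tau_append v l
  have hs : (0:ℝ) ≤ ∑ i ∈ Finset.range D, (if W L (tau l + i) (v ++ l) then (1:ℝ) else 0) :=
    Finset.sum_nonneg (fun i _ => by split_ifs <;> norm_num)
  have ht : (0:ℝ) ≤ (1 / D : ℝ) * ((tau (v ++ l) : ℝ) - tau l) :=
    mul_nonneg (by positivity) (by linarith)
  by_cases h : L ≤ r (v ++ l)
  · rw [if_pos h]
    by_cases h2 : tau (v ++ l) < tau l + D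
    · have hm := tau_append v l
      have hW := r_window (v ++ l) L (by
        intro h0
        have := congrArg List.length h0
        simp only [List.length_append, List.length_nil] at this
        omega) h
      have : (1:ℝ) ≤ ∑ i ∈ Finset.range D, (if W L (tau l + i) (v ++ l) then (1:ℝ) else 0) := by
        have h3 := Finset.single_le_sum (s := Finset.range D)
          (f := fun i => (if W L (tau l + i) (v ++ l) then (1:ℝ) else 0))
          (fun i _ => by split_ifs <;> norm_num)
          (Finset.mem_range.2 (show tau (v ++ l) - tau l < D by omega))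
        rw [show tau l + (tau (v ++ l) - tau l) = tau (v ++ l) by omega, if_pos hW] at h3
        exact h3
      linarith
    · have h3 : (tau l : ℝ) + D ≤ tau (v ++ l) := by
        have : tau l + D ≤ tau (v ++ l) := by omega
        exact_mod_cast this
      have h4 : (1:ℝ) ≤ (1 / D : ℝ) * ((tau (v ++ l) : ℝ) - tau l) := by
        rw [one_div, ← div_eq_inv_mul, le_div_iff₀ hD']
        linarith
      linarith
  · rw [if_neg h]; linarith

open Classical in
lemma tail_local (L D : ℕ) (hL : 1 ≤ L) (hD : 1 ≤ D) (l : List Bool) :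
    S L l (fun w => if L ≤ r w then (1:ℝ) else 0) ≤
      D + (1 / D : ℝ) * (S L l (fun w => (tau w : ℝ)) - 2 ^ L * tau l) := by
  have h1 := S_mono L l (fun w => if L ≤ r w then (1:ℝ) else 0)
    (fun w => ∑ i ∈ Finset.range D, (if W L (tau l + i) w then (1:ℝ) else 0) +
        (1 / D : ℝ) * ((tau w : ℝ) + (- tau l))) (fun v hv => by
      have := point L D hL hD l v hv
      simpa [sub_eq_add_neg] using this)
  rw [S_addf, S_sum, S_smul, S_addf, S_const] at h1
  simp only [S_W, Finset.sum_const, Finset.card_range, nsmul_eq_mul, mul_one] at h1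
  refine h1.trans (le_of_eq ?_)
  ring

/-- Mean of `tau` and `r`. -/
noncomputable def E (n : ℕ) : ℝ := S n [] (fun w => (tau w : ℝ)) / 2 ^ n
noncomputable def R (n : ℕ) : ℝ := S n [] (fun w => (r w : ℝ)) / 2 ^ n

lemma E_zero : E 0 = 0 := by simp [E, S_zero, tau_nil]

lemma E_succ (n : ℕ) : E (n+1) ≤ E n + R n / 2 := by
  have h : S (n+1) [] (fun w => (tau w : ℝ)) ≤
      2 * S n [] (fun w => (tau w : ℝ)) + S n [] (fun w => (r w : ℝ)) := by
    rw [S_succ, ← S_smul, ← S_addf]
    apply S_mono
    intro w _
    have := tau_step (w ++ [])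
    exact_mod_cast this
  unfold E R
  rw [pow_succ]
  have h2 : (0:ℝ) < 2 ^ n := by positivity
  rw [div_le_iff₀ (by positivity)]
  calc S (n+1) [] (fun w => (tau w : ℝ)) ≤ _ := h
    _ = _ := by field_simp; try ring

open Classical in
lemma tail (m L D : ℕ) (hL : 1 ≤ L) (hD : 1 ≤ D) :
    S (m + L) [] (fun w => if L ≤ r w then (1:ℝ) else 0) / 2 ^ (m + L) ≤
      D / 2 ^ L + (1 / D : ℝ) * (E (m + L) - E m) := by
  have h : S (m + L) [] (fun w => if L ≤ r w then (1:ℝ) else 0) ≤
      2 ^ m * D + (1 / D : ℝ) * (S (m + L) [] (fun w => (tau w : ℝ))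
        - 2 ^ L * S m [] (fun w => (tau w : ℝ))) := by
    rw [S_add, S_add]
    have h1 := S_mono m [] (fun l => S L l (fun w => if L ≤ r w then (1:ℝ) else 0))
      (fun l => (D:ℝ) + (1 / D : ℝ) * (S L l (fun w => (tau w : ℝ)) + (- 2 ^ L) * tau l))
      (fun v _ => by
        have := tail_local L D hL hD (v ++ [])
        refine this.trans (le_of_eq ?_)
        ring)
    rw [S_addf, S_const, S_smul, S_addf, S_smul] at h1
    refine h1.trans (le_of_eq ?_)
    ring
  unfold E
  have h2 : (0:ℝ) < 2 ^ m := by positivity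
  have h3 : (0:ℝ) < 2 ^ L := by positivity
  have hD' : (0:ℝ) < D := by exact_mod_cast hD
  rw [div_le_iff₀ (by positivity)]
  refine h.trans (le_of_eq ?_)
  rw [pow_add]
  field_simp

lemma E_diff (m L : ℕ) (B : ℝ) (h : ∀ i < m + L, R i ≤ B) : E (m + L) - E m ≤ L * (B / 2) := by
  induction L with
  | zero => simp
  | succ L ih =>
    have h1 := ih (fun i hi => h i (by omega))
    have h2 := E_succ (m + L)
    have h3 := h (m + L) (by omega)
    rw [← add_assoc]
    push_cast
    linarith

/-- The tail bound. -/
noncomputable def g (L : ℕ) : ℝ := (1 + 12 * L) / 2 ^ (L / 2)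

lemma g_pos (L : ℕ) : 0 ≤ g L := by unfold g; positivity

lemma g_sum (m : ℕ) : ∑ L ∈ Finset.range (2 * m), g (L + 12) ≤
    10.9375 - (48 * ((m:ℝ) + 5) + 110) / 2 ^ (m + 5) := by
  induction m with
  | zero => norm_num
  | succ m ih =>
    rw [show 2 * (m + 1) = 2 * m + 1 + 1 by ring, Finset.sum_range_succ, Finset.sum_range_succ]
    have h1 : g (2 * m + 12) = (1 + 12 * (2 * (m:ℝ) + 12)) / 2 ^ (m + 6) := by
      unfold g
      rw [show (2 * m + 12) / 2 = m + 6 by omega]
      push_cast; ring
    have h2 : g (2 * m + 1 + 12) = (1 + 12 * (2 * (m:ℝ) + 13)) / 2 ^ (m + 6) := by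
      unfold g
      rw [show (2 * m + 1 + 12) / 2 = m + 6 by omega]
      push_cast; ring
    rw [h1, h2]
    have h3 : (48 * ((m:ℝ) + 5) + 110) / 2 ^ (m + 5) =
        (2 * (48 * ((m:ℝ) + 5) + 110)) / 2 ^ (m + 6) := by
      rw [show m + 6 = (m + 5) + 1 by ring, pow_succ]
      field_simp
      ring
    rw [h3] at ih
    have h4 : (48 * (((m + 1 : ℕ):ℝ) + 5) + 110) / 2 ^ (m + 1 + 5) =
        (48 * ((m:ℝ) + 6) + 110) / 2 ^ (m + 6) := by
      push_cast
      rw [show m + 1 + 5 = m + 6 by ring]
      ring
    rw [h4]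
    have h5 : (0:ℝ) < 2 ^ (m + 6) := by positivity
    have h6 : (1 + 12 * (2 * (m:ℝ) + 12)) / 2 ^ (m + 6) + (1 + 12 * (2 * (m:ℝ) + 13)) / 2 ^ (m + 6)
        + (48 * ((m:ℝ) + 6) + 110) / 2 ^ (m + 6) ≤
        (2 * (48 * ((m:ℝ) + 5) + 110)) / 2 ^ (m + 6) := by
      rw [← add_div, ← add_div]
      apply div_le_div_of_nonneg_right _ h5.le
      linarith
    linarith

lemma g_sum' (k : ℕ) : ∑ L ∈ Finset.range k, g (L + 12) ≤ 11 := by
  have h1 : ∑ L ∈ Finset.range k, g (L + 12) ≤ ∑ L ∈ Finset.range (2 * k), g (L + 12) :=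
    Finset.sum_le_sum_of_subset_of_nonneg (Finset.range_subset_range.2 (by omega))
      (fun i _ _ => g_pos _)
  have h2 := g_sum k
  have h3 : (0:ℝ) ≤ (48 * ((k:ℝ) + 5) + 110) / 2 ^ (k + 5) := by positivity
  linarith

open Classical in
lemma tail' (n L : ℕ) (hL : 1 ≤ L) (hn : L ≤ n) (h : ∀ i < n, R i ≤ 24) :
    S n [] (fun w => if L ≤ r w then (1:ℝ) else 0) / 2 ^ n ≤ g L := by
  obtain ⟨m, rfl⟩ : ∃ m, n = m + L := ⟨n - L, by omega⟩
  have h1 := tail m L (2 ^ (L / 2)) hL Nat.one_le_two_pow
  have h2 := E_diff m L 24 h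
  refine h1.trans ?_
  unfold g
  have h3 : (0:ℝ) < 2 ^ (L / 2) := by positivity
  have h4 : ((2 ^ (L / 2) : ℕ) : ℝ) / 2 ^ L ≤ 1 / 2 ^ (L / 2) := by
    push_cast
    rw [div_le_div_iff₀ (by positivity) h3, ← pow_add, one_mul]
    exact pow_le_pow_right₀ (by norm_num) (by omega)
  have h5 : (1 / ((2 ^ (L / 2) : ℕ) : ℝ)) * (E (m + L) - E m) ≤ (12 * L) / 2 ^ (L / 2) := by
    push_cast
    rw [one_div, ← div_eq_inv_mul]
    apply div_le_div_of_nonneg_right _ h3.le
    linarith
  rw [add_div]
  linarith

open Classical in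
lemma layer (n k : ℕ) (h : k ≤ n) :
    (k : ℝ) = ∑ L ∈ Finset.range n, (if L + 1 ≤ k then (1:ℝ) else 0) := by
  rw [Finset.sum_ite, Finset.sum_const_zero, add_zero, Finset.sum_const, nsmul_eq_mul, mul_one]
  congr 1
  have : Finset.filter (fun L => L + 1 ≤ k) (Finset.range n) = Finset.range k := by
    ext i
    simp only [Finset.mem_filter, Finset.mem_range]
    omega
  rw [this, Finset.card_range]

open Classical in
lemma R_le (n : ℕ) : R n ≤ 24 := by
  induction n using Nat.strong_induction_on with
  | _ n ih =>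
    rcases Nat.eq_zero_or_pos n with rfl | hn
    · have h1 : r [] ≤ 1 := Nat.sInf_le (s := {i | 1 ≤ i ∧ C [] (tau [] + i) = true}) ⟨le_rfl, rfl⟩
      have h2 : (r [] : ℝ) ≤ 1 := by exact_mod_cast h1
      simp only [R, S_zero, pow_zero, div_one]
      linarith
    · have h1 : S n [] (fun w => (r w : ℝ)) =
          ∑ L ∈ Finset.range n, S n [] (fun w => if L + 1 ≤ r w then (1:ℝ) else 0) := by
        rw [← S_sum]
        apply S_congr
        intro w hw
        apply layer
        rw [List.append_nil]
        have hw0 : w ≠ [] := by rintro rfl; simp at hw; omega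
        have := r_le w hw0
        omega
      have h2 : R n = ∑ L ∈ Finset.range n,
          S n [] (fun w => if L + 1 ≤ r w then (1:ℝ) else 0) / 2 ^ n := by
        rw [← Finset.sum_div, ← h1]; rfl
      have h3 : ∀ L, S n [] (fun w => if L + 1 ≤ r w then (1:ℝ) else 0) / 2 ^ n ≤ 1 := by
        intro L
        have : S n [] (fun w => if L + 1 ≤ r w then (1:ℝ) else 0) ≤ S n [] (fun _ => (1:ℝ)) := by
          apply S_mono
          intro w _
          split_ifs <;> norm_num
        rw [S_const, mul_one] at this
        rw [div_le_one (by positivity)]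
        exact this
      rw [h2]
      rcases le_or_gt n 11 with h11 | h11
      · calc _ ≤ ∑ L ∈ Finset.range n, (1:ℝ) := Finset.sum_le_sum (fun L _ => h3 L)
          _ = n := by simp
          _ ≤ 24 := by
            have : (n:ℝ) ≤ 11 := by exact_mod_cast h11
            linarith
      · obtain ⟨k, rfl⟩ : ∃ k, n = 11 + k := ⟨n - 11, by omega⟩
        rw [Finset.sum_range_add]
        have h4 : ∑ L ∈ Finset.range 11,
            S (11 + k) [] (fun w => if L + 1 ≤ r w then (1:ℝ) else 0) / 2 ^ (11 + k) ≤ 11 := by
          calc _ ≤ ∑ L ∈ Finset.range 11, (1:ℝ) := Finset.sum_le_sum (fun L _ => h3 L)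
            _ = 11 := by simp
        have h5 : ∑ L ∈ Finset.range k,
            S (11 + k) [] (fun w => if 11 + L + 1 ≤ r w then (1:ℝ) else 0) / 2 ^ (11 + k) ≤
            ∑ L ∈ Finset.range k, g (L + 12) := by
          apply Finset.sum_le_sum
          intro L hL
          rw [Finset.mem_range] at hL
          rw [show 11 + L + 1 = L + 12 by ring]
          exact tail' (11 + k) (L + 12) (by omega) (by omega) ih
        have h6 := g_sum' k
        linarith

lemma E_le (n : ℕ) : E n ≤ 12 * n := by
  have := E_diff 0 n 24 (fun i _ => R_le i)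
  rw [zero_add, E_zero] at this
  linarith

/-! ## The forward dynamics and duality -/

/-- First bit (`true` for the empty list, which stands for the polynomial `1`). -/
def hd : List Bool → Bool
  | [] => true
  | (b :: _) => b

/-- One combined odd step. -/
def A : List Bool → List Bool
  | [] => []
  | (b :: l) => xor b (hd l) :: A l

/-- Bit of the forward field. -/
def B (l : List Bool) (k : ℕ) : Bool := hd (A^[k] l)

lemma A_iter_cons (b : Bool) (l : List Bool) (k : ℕ) :
    A^[k] (b :: l) = B (b :: l) k :: A^[k] l := by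
  induction k with
  | zero => rfl
  | succ k ih =>
    have h : A^[k+1] (b :: l) = xor (B (b :: l) k) (hd (A^[k] l)) :: A^[k+1] l := by
      rw [Function.iterate_succ_apply', ih, Function.iterate_succ_apply']
      rfl
    have h2 : B (b :: l) (k+1) = xor (B (b :: l) k) (hd (A^[k] l)) := by
      unfold B
      rw [h]
      rfl
    rw [h, h2]

lemma B_succ (b : Bool) (l : List Bool) (k : ℕ) :
    B (b :: l) (k+1) = xor (B (b :: l) k) (B l k) := by
  have h : A^[k+1] (b :: l) = xor (B (b :: l) k) (hd (A^[k] l)) :: A^[k+1] l := by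
    rw [Function.iterate_succ_apply', A_iter_cons, Function.iterate_succ_apply']
    rfl
  conv_lhs => unfold B
  rw [h]
  rfl

lemma A_iter_nil (k : ℕ) : A^[k] [] = [] := by
  induction k with
  | zero => rfl
  | succ k ih => rw [Function.iterate_succ_apply', ih]; rfl

lemma B_nil (k : ℕ) : B [] k = true := by
  unfold B; rw [A_iter_nil]; rfl

lemma B_inf (l : List Bool) (k : ℕ) : ∃ t, k ≤ t ∧ B l t = true := by
  induction l generalizing k with
  | nil => exact ⟨k, le_refl _, B_nil k⟩
  | cons a l ih =>
    obtain ⟨s, ht, h1⟩ := ih k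
    have h2 := B_succ a l s
    rw [h1] at h2
    cases h3 : B (a :: l) s with
    | true => exact ⟨s, by omega, h3⟩
    | false => rw [h3] at h2; exact ⟨s+1, by omega, h2⟩

lemma B_inf' (a : Bool) (l : List Bool) (k : ℕ) : ∃ t, k ≤ t ∧ B (a :: l) t = false := by
  obtain ⟨s, ht, h1⟩ := B_inf l k
  have h2 := B_succ a l s
  rw [h1] at h2
  cases h3 : B (a :: l) s with
  | false => exact ⟨s, by omega, h3⟩
  | true => rw [h3] at h2; exact ⟨s+1, by omega, h2⟩

lemma C_hd (l : List Bool) : C l 0 = hd l := by cases l <;> rfl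

lemma C_A (l : List Bool) (t : ℕ) : C (A l) (t+1) = C l t := by
  induction l generalizing t with
  | nil => rfl
  | cons a l ih =>
    induction t with
    | zero =>
      change C (xor a (hd l) :: A l) (0+1) = a
      rw [C_succ, ih, C_zero, C_hd]
      cases a <;> cases hd l <;> rfl
    | succ t iht =>
      change C (xor a (hd l) :: A l) (t+1+1) = _
      change C (xor a (hd l) :: A l) (t+1) = _ at iht
      rw [C_succ, iht, ih, C_succ]

lemma C_A_iter (l : List Bool) (n t : ℕ) (h : t ≤ n) : C (A^[n] l) t = B l (n - t) := by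
  induction t generalizing n with
  | zero => rw [C_hd]; rfl
  | succ t ih =>
    obtain ⟨m, rfl⟩ : ∃ m, n = m + 1 := ⟨n - 1, by omega⟩
    rw [Function.iterate_succ_apply', C_A, ih m (by omega), Nat.add_sub_add_right]

/-- End row of the forward path started in row `k`. -/
noncomputable def Psi : List Bool → ℕ → ℕ
  | [], k => k
  | (b :: l), k => Psi l (sInf {k' | k ≤ k' ∧ B (b :: l) k' = false})

lemma dual (l : List Bool) (k m : ℕ) (hm : 1 ≤ m) :
    m ≤ Psi l k ↔ m ≤ k + tau (A^[m-1] l) := by
  induction l generalizing k with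
  | nil => rw [A_iter_nil]; rfl
  | cons b l ih =>
    have hk := Nat.sInf_mem (s := {k' | k ≤ k' ∧ B (b :: l) k' = false}) (B_inf' b l k)
    have hmin : ∀ j, k ≤ j → B (b :: l) j = false →
        sInf {k' | k ≤ k' ∧ B (b :: l) k' = false} ≤ j := fun j h1 h2 => Nat.sInf_le ⟨h1, h2⟩
    change m ≤ Psi l (sInf {k' | k ≤ k' ∧ B (b :: l) k' = false}) ↔ _
    rw [ih]
    generalize sInf {k' | k ≤ k' ∧ B (b :: l) k' = false} = k' at hk hmin ⊢
    obtain ⟨hk1, hk2⟩ := hk
    rw [A_iter_cons]
    have ht := tau_spec (B (b :: l) (m-1)) (A^[m-1] l)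
    have htmin := tau_le (B (b :: l) (m-1)) (A^[m-1] l)
    rw [← A_iter_cons] at ht htmin ⊢
    generalize tau (A^[m-1] (b :: l)) = t' at ht htmin ⊢
    generalize tau (A^[m-1] l) = s at ht htmin ⊢
    constructor
    · intro h
      by_contra h2
      have h3 : t' ≤ m - 1 := by omega
      have h4 := ht.2
      rw [C_A_iter _ _ _ h3] at h4
      have h5 := hmin (m - 1 - t') (by omega) h4
      have := ht.1
      omega
    · intro h
      by_contra h2
      have h3 : m - 1 - k' ≤ m - 1 := by omega
      have h4 := C_A_iter (b :: l) (m-1) (m - 1 - k') h3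
      rw [show m - 1 - (m - 1 - k') = k' by omega, hk2] at h4
      have h5 := htmin (m - 1 - k') (by omega) h4
      omega

lemma S_A {M : Type*} [AddCommMonoid M] (n : ℕ) (F : List Bool → M) :
    S n [] (fun w => F (A w)) = S n [] F := by
  induction n generalizing F with
  | zero => rfl
  | succ n ih =>
    rw [S_succ, S_succ]
    refine Eq.trans ?_ (ih (fun w => F (false :: w) + F (true :: w)))
    congr 1
    funext w
    change F (xor false (hd w) :: A w) + F (xor true (hd w) :: A w) = _
    cases hd w
    · rfl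
    · exact add_comm _ _

lemma S_A_iter {M : Type*} [AddCommMonoid M] (n k : ℕ) (F : List Bool → M) :
    S n [] (fun w => F (A^[k] w)) = S n [] F := by
  induction k generalizing F with
  | zero => rfl
  | succ k ih =>
    have := S_A n (fun w => F (A^[k] w))
    simp only [← Function.iterate_succ_apply] at this
    rw [this, ih]

lemma exists_bound (n : ℕ) (f : List Bool → ℕ) : ∃ N, ∀ w : List Bool, w.length = n → f w ≤ N := by
  induction n generalizing f with
  | zero =>
    refine ⟨f [], fun w hw => ?_⟩
    rw [List.length_eq_zero_iff.1 hw]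
  | succ n ih =>
    obtain ⟨N1, h1⟩ := ih (fun w => f (false :: w))
    obtain ⟨N2, h2⟩ := ih (fun w => f (true :: w))
    refine ⟨max N1 N2, fun w hw => ?_⟩
    match w, hw with
    | (false :: w), hw => exact (h1 w (by simpa using hw)).trans (le_max_left _ _)
    | (true :: w), hw => exact (h2 w (by simpa using hw)).trans (le_max_right _ _)

open Classical in
lemma sum_Psi (n : ℕ) : S n [] (fun w => (Psi w 0 : ℝ)) ≤ S n [] (fun w => (tau w : ℝ)) := by
  obtain ⟨N, hN⟩ := exists_bound n (fun w => Psi w 0)
  have h1 : S n [] (fun w => (Psi w 0 : ℝ)) =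
      ∑ L ∈ Finset.range N, S n [] (fun w => if L + 1 ≤ Psi w 0 then (1:ℝ) else 0) := by
    rw [← S_sum]
    apply S_congr
    intro w hw
    rw [List.append_nil]
    exact layer _ _ (hN w hw)
  have h2 : ∀ L, S n [] (fun w => if L + 1 ≤ Psi w 0 then (1:ℝ) else 0) =
      S n [] (fun w => if L + 1 ≤ tau w then (1:ℝ) else 0) := by
    intro L
    rw [← S_A_iter n L (fun w => if L + 1 ≤ tau w then (1:ℝ) else 0)]
    congr 1
    funext w
    have := dual w 0 (L+1) (by omega)
    rw [zero_add, Nat.add_sub_cancel] at this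
    simp only [this]
  rw [h1]
  simp only [h2]
  rw [← S_sum]
  apply S_mono
  intro w _
  rw [layer (max N (tau (w ++ []))) (tau (w ++ [])) (le_max_right _ _)]
  exact Finset.sum_le_sum_of_subset_of_nonneg (Finset.range_subset_range.2 (le_max_left _ _))
    (fun i _ _ => by split_ifs <;> norm_num)

/-! ## Polynomials -/

/-- A bit as an element of `F₂`. -/
def z (b : Bool) : ZMod 2 := if b then 1 else 0

lemma z_xor (a b : Bool) : z (xor a b) = z a + z b := by
  cases a <;> cases b <;> decide

/-- The polynomial of a list. -/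
noncomputable def poly : List Bool → (ZMod 2)[X]
  | [] => 1
  | (b :: l) => X * poly l + Polynomial.C (z b)

lemma poly_coeff (l : List Bool) : (poly l).coeff 0 = z (hd l) := by
  cases l with
  | nil => simp [poly, hd, z]
  | cons b l => simp [poly, hd]

lemma divX_aux (p : (ZMod 2)[X]) (c : ZMod 2) : (X * p + Polynomial.C c).divX = p := by
  ext n
  rw [coeff_divX, coeff_add, coeff_X_mul, coeff_C_succ, add_zero]

lemma divX_poly (b : Bool) (l : List Bool) : (poly (b :: l)).divX = poly l := divX_aux _ _

lemma poly_A (l : List Bool) : poly (A l) = poly l + (poly l).divX := by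
  induction l with
  | nil => simp [A, poly]
  | cons b l ih =>
    rw [divX_poly]
    change X * poly (A l) + Polynomial.C (z (xor b (hd l))) = X * poly l + Polynomial.C (z b) + poly l
    rw [ih, z_xor, ← poly_coeff, Polynomial.C_add]
    have h := divX_mul_X_add (poly l)
    linear_combination h

lemma T_false (l : List Bool) : T (poly (false :: l)) = poly l := by
  unfold T
  have h : ¬ z (hd (false :: l)) = 1 := by
    change ¬ z false = 1
    decide
  rw [poly_coeff, divX_poly, if_neg h]

lemma T_true (l : List Bool) : T^[2] (poly (true :: l)) = poly (A (true :: l)) := by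
  have h1 : T (poly (true :: l)) = X * poly (A (true :: l)) := by
    unfold T
    have h : z (hd (true :: l)) = 1 := by
      change z true = 1
      decide
    rw [poly_coeff, if_pos h, poly_A, divX_poly]
    have h2 : poly (true :: l) = X * poly l + 1 := by
      change X * poly l + Polynomial.C (z true) = _
      simp [z]
    have h3 : (1 : (ZMod 2)[X]) + 1 = 0 := by
      rw [← two_mul, mul_one]
      exact CharTwo.two_eq_zero
    calc (X + 1) * poly (true :: l) + 1 = X * poly (true :: l) + (X * poly l + (1 + 1)) := by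
          conv_lhs => rw [add_mul, one_mul]
          conv_lhs => rw [add_assoc]
          congr 1
          rw [h2, add_assoc]
      _ = X * (poly (true :: l) + poly l) := by rw [h3, add_zero, mul_add]
  change T (T (poly (true :: l))) = _
  rw [h1]
  unfold T
  have h4 : (X * poly (A (true :: l))).coeff 0 = 0 := by simp
  rw [h4, if_neg (by decide)]
  have := divX_aux (poly (A (true :: l))) 0
  rwa [Polynomial.C_0, add_zero] at this

lemma path_ones (b : Bool) (l : List Bool) (k j : ℕ) (h : ∀ i < j, B (b :: l) (k + i) = true) :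
    T^[2 * j] (poly (A^[k] (b :: l))) = poly (A^[k + j] (b :: l)) := by
  induction j with
  | zero => rfl
  | succ j ih =>
    rw [show 2 * (j + 1) = 2 + 2 * j by ring, Function.iterate_add_apply,
      ih (fun i hi => h i (by omega)), A_iter_cons, h j (by omega), T_true, ← add_assoc,
      Function.iterate_succ_apply', A_iter_cons, h j (by omega)]

lemma path (l : List Bool) (k : ℕ) :
    ∃ n, n + 2 * k = l.length + 2 * Psi l k ∧ T^[n] (poly (A^[k] l)) = 1 := by
  induction l generalizing k with
  | nil =>
    refine ⟨0, by simp [Psi], ?_⟩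
    rw [A_iter_nil]
    rfl
  | cons b l ih =>
    have hk := Nat.sInf_mem (s := {k' | k ≤ k' ∧ B (b :: l) k' = false}) (B_inf' b l k)
    have hmin : ∀ j, k ≤ j → B (b :: l) j = false →
        sInf {k' | k ≤ k' ∧ B (b :: l) k' = false} ≤ j := fun j h1 h2 => Nat.sInf_le ⟨h1, h2⟩
    have hP : Psi (b :: l) k = Psi l (sInf {k' | k ≤ k' ∧ B (b :: l) k' = false}) := rfl
    rw [hP]
    generalize sInf {k' | k ≤ k' ∧ B (b :: l) k' = false} = k' at hk hmin ⊢
    obtain ⟨hk1, hk2⟩ := hk
    obtain ⟨n, hn, hT⟩ := ih k'
    obtain ⟨j, rfl⟩ : ∃ j, k' = k + j := ⟨k' - k, by omega⟩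
    have h1 := path_ones b l k j (fun i hi => by
      by_contra h
      have h2 : B (b :: l) (k + i) = false := by simpa using h
      have := hmin (k + i) (by omega) h2
      omega)
    refine ⟨n + (1 + 2 * j), ?_, ?_⟩
    · simp only [List.length_cons]; omega
    · rw [Function.iterate_add_apply, Function.iterate_add_apply, h1, A_iter_cons, hk2]
      change T^[n] (T (poly (false :: A^[k + j] l))) = 1
      rw [T_false, hT]

lemma reach (l : List Bool) : T^[l.length + 2 * Psi l 0] (poly l) = 1 := by
  obtain ⟨n, hn, hT⟩ := path l 0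
  rw [← hn]
  exact hT

lemma tmin_le (l : List Bool) : tmin (poly l) ≤ l.length + 2 * Psi l 0 :=
  Nat.sInf_le (s := {k | T^[k] (poly l) = 1}) (reach l)

lemma natDegree_T (f : (ZMod 2)[X]) : f.natDegree ≤ (T f).natDegree + 1 := by
  unfold T
  split_ifs with h
  · have hf : f ≠ 0 := by rintro rfl; simp at h
    have h1 : ((X + 1) * f + 1).natDegree = f.natDegree + 1 := by
      have h2 : (X + 1 : (ZMod 2)[X]) = X + Polynomial.C 1 := by simp
      have h3 : ((X + 1) * f + 1 : (ZMod 2)[X]) = (X + Polynomial.C 1) * f + Polynomial.C 1 := by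
        simp
      rw [h3, natDegree_add_C, natDegree_mul (X_add_C_ne_zero 1) hf, natDegree_X_add_C]
      ring
    omega
  · rw [natDegree_divX_eq_natDegree_tsub_one]
    omega

lemma natDegree_le_of_iter (k : ℕ) (f : (ZMod 2)[X]) (h : T^[k] f = 1) : f.natDegree ≤ k := by
  induction k generalizing f with
  | zero =>
    have : f = 1 := h
    rw [this]; simp
  | succ k ih =>
    have h1 := ih (T f) h
    have h2 := natDegree_T f
    omega

/-! ## Summation over polynomials of degree `d` -/

open Classical in
/-- The polynomials of degree exactly `n`. -/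
noncomputable def PS : ℕ → Finset (ZMod 2)[X]
  | 0 => {1}
  | n+1 => (PS n).image (fun g => X * g + Polynomial.C (z false)) ∪
      (PS n).image (fun g => X * g + Polynomial.C (z true))

lemma mem_PS (n : ℕ) (f : (ZMod 2)[X]) : f ∈ PS n ↔ f.degree = (n : WithBot ℕ) := by
  induction n generalizing f with
  | zero =>
    simp only [PS, Finset.mem_singleton, Nat.cast_zero]
    constructor
    · rintro rfl; exact degree_one
    · intro h
      rw [eq_C_of_degree_eq_zero h]
      have h2 : f.coeff 0 ≠ 0 := by
        intro h0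
        rw [eq_C_of_degree_eq_zero h, h0, Polynomial.C_0, degree_zero] at h
        exact absurd h (by simp)
      have h3 : f.coeff 0 = 1 := by
        generalize f.coeff 0 = c at h2
        revert c
        decide
      rw [h3, Polynomial.C_1]
  | succ n ih =>
    simp only [PS, Finset.mem_union, Finset.mem_image]
    have key : ∀ (g : (ZMod 2)[X]) (c : ZMod 2), g.degree = (n : WithBot ℕ) →
        (X * g + Polynomial.C c).degree = ((n+1 : ℕ) : WithBot ℕ) := by
      intro g c hg
      have h1 : (X * g).degree = ((n+1 : ℕ) : WithBot ℕ) := by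
        rw [degree_mul, degree_X, hg]
        push_cast
        rw [add_comm]
      rw [degree_add_C (by rw [h1]; exact_mod_cast Nat.succ_pos n), h1]
    constructor
    · rintro (⟨g, hg, rfl⟩ | ⟨g, hg, rfl⟩)
      · exact key g _ ((ih g).1 hg)
      · exact key g _ ((ih g).1 hg)
    · intro h
      have hf0 : f ≠ 0 := by
        rintro rfl
        rw [degree_zero] at h
        exact (WithBot.natCast_ne_bot (n+1)) h.symm
      have hd1 : f.natDegree = n + 1 := natDegree_eq_of_degree_eq_some h
      have h1 : f.divX.natDegree = n := by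
        rw [natDegree_divX_eq_natDegree_tsub_one, hd1]; rfl
      have h2 : f.divX ≠ 0 := by
        intro h0
        have h3 := divX_mul_X_add f
        rw [h0, zero_mul, zero_add] at h3
        rw [← h3, natDegree_C] at hd1
        omega
      have h3 : f.divX.degree = (n : WithBot ℕ) := by
        rw [degree_eq_natDegree h2, h1]
      have h4 : ∀ c : ZMod 2, c = z false ∨ c = z true := by decide
      rcases h4 (f.coeff 0) with h5 | h5
      · left
        refine ⟨f.divX, (ih _).2 h3, ?_⟩
        rw [← h5, mul_comm, divX_mul_X_add]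
      · right
        refine ⟨f.divX, (ih _).2 h3, ?_⟩
        rw [← h5, mul_comm, divX_mul_X_add]

lemma sum_PS (n : ℕ) (F : (ZMod 2)[X] → ℝ) :
    ∑ f ∈ PS n, F f = S n [] (fun w => F (poly w)) := by
  classical
  induction n generalizing F with
  | zero => simp [PS, S_zero, poly]
  | succ n ih =>
    have h1 : S (n+1) [] (fun w => F (poly w)) =
        S n [] (fun w => (fun g => F (X * g + Polynomial.C (z false)) +
          F (X * g + Polynomial.C (z true))) (poly w)) := rfl
    rw [h1, ← ih (fun g => F (X * g + Polynomial.C (z false)) +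
      F (X * g + Polynomial.C (z true)))]
    have hinj : ∀ c : ZMod 2, Function.Injective (fun g : (ZMod 2)[X] => X * g + Polynomial.C c) := by
      intro c g1 g2 h
      have := congrArg divX h
      simpa only [divX_aux] using this
    have hdisj : Disjoint ((PS n).image (fun g => X * g + Polynomial.C (z false)))
        ((PS n).image (fun g => X * g + Polynomial.C (z true))) := by
      rw [Finset.disjoint_left]
      intro f hf1 hf2
      rw [Finset.mem_image] at hf1 hf2
      obtain ⟨g1, _, rfl⟩ := hf1
      obtain ⟨g2, _, h⟩ := hf2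
      have := congrArg (fun p : (ZMod 2)[X] => p.coeff 0) h
      simp [z] at this
    have h2 : PS (n+1) = (PS n).image (fun g => X * g + Polynomial.C (z false)) ∪
      (PS n).image (fun g => X * g + Polynomial.C (z true)) := by
      simp only [PS]
    rw [h2, Finset.sum_union hdisj, Finset.sum_image (fun a _ b _ h => hinj _ h),
      Finset.sum_image (fun a _ b _ h => hinj _ h), Finset.sum_add_distrib]

lemma rho_eq (d : ℕ) : rho d = S d [] (fun w => (tmin (poly w) : ℝ)) / 2 ^ d := by
  unfold rho
  have h : {f : (ZMod 2)[X] | f.degree = (d : WithBot ℕ)} = ↑(PS d) := by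
    ext f
    simp only [Set.mem_ofPred_eq, Finset.mem_coe]
    exact (mem_PS d f).symm
  rw [h, finsum_mem_coe_finset, sum_PS]
  ring

lemma poly_natDegree (l : List Bool) : (poly l).natDegree = l.length ∧ poly l ≠ 0 := by
  induction l with
  | nil => simp [poly]
  | cons b l ih =>
    have h1 : (poly (b :: l)).natDegree = l.length + 1 := by
      change (X * poly l + Polynomial.C (z b)).natDegree = _
      rw [natDegree_add_C, natDegree_X_mul ih.2, ih.1]
    refine ⟨by simpa using h1, ?_⟩
    intro h
    rw [h] at h1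
    simp at h1

/-- **Main theorem (Q1).** The stopping time is finite for every nonzero polynomial, and the
average stopping time satisfies `d ≤ ρ(d) ≤ 25 d` for every `d`. -/
theorem result :
    (∀ f : (ZMod 2)[X], f ≠ 0 → ∃ k, T^[k] f = 1) ∧
    (∀ d : ℕ, (d : ℝ) ≤ rho d ∧ rho d ≤ 25 * d) ∧
    (∃ c₁ c₂ : ℝ, 0 < c₁ ∧ c₁ ≤ c₂ ∧
      ∀ᶠ d : ℕ in Filter.atTop, c₁ * d ≤ rho d ∧ rho d ≤ c₂ * d) := by
  have main : ∀ d : ℕ, (d : ℝ) ≤ rho d ∧ rho d ≤ 25 * d := by
    intro d
    rw [rho_eq]
    have h2 : (0:ℝ) < 2 ^ d := by positivity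
    constructor
    · rw [le_div_iff₀ h2]
      have h1 := S_mono d [] (fun _ => (d:ℝ)) (fun w => (tmin (poly w) : ℝ)) (by
        intro w hw
        rw [List.append_nil]
        have h3 : T^[tmin (poly w)] (poly w) = 1 :=
          Nat.sInf_mem (s := {k | T^[k] (poly w) = 1}) ⟨_, reach w⟩
        have h4 := natDegree_le_of_iter _ _ h3
        rw [(poly_natDegree w).1, hw] at h4
        exact_mod_cast h4)
      rw [S_const] at h1
      linarith
    · rw [div_le_iff₀ h2]
      have h1 := S_mono d [] (fun w => (tmin (poly w) : ℝ))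
        (fun w => (d:ℝ) + 2 * (Psi w 0 : ℝ)) (by
        intro w hw
        rw [List.append_nil]
        have := tmin_le w
        rw [hw] at this
        exact_mod_cast this)
      rw [S_addf, S_const, S_smul] at h1
      have h3 := sum_Psi d
      have h4 := E_le d
      unfold E at h4
      rw [div_le_iff₀ h2] at h4
      nlinarith
  refine ⟨?_, main, 1, 25, by norm_num, by norm_num, Filter.Eventually.of_forall (fun d => ?_)⟩
  · intro f hf
    have h1 : f ∈ PS f.natDegree := (mem_PS _ _).2 (degree_eq_natDegree hf)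
    have h2 : ∀ n, ∀ f ∈ PS n, ∃ l, poly l = f := by
      intro n
      induction n with
      | zero =>
        intro f hf
        simp only [PS, Finset.mem_singleton] at hf
        exact ⟨[], hf.symm⟩
      | succ n ih =>
        intro f hf
        simp only [PS, Finset.mem_union, Finset.mem_image] at hf
        rcases hf with ⟨g, hg, rfl⟩ | ⟨g, hg, rfl⟩
        · obtain ⟨l, rfl⟩ := ih g hg
          exact ⟨false :: l, rfl⟩
        · obtain ⟨l, rfl⟩ := ih g hg
          exact ⟨true :: l, rfl⟩
    obtain ⟨l, rfl⟩ := h2 _ _ h1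
    exact ⟨_, reach l⟩
  · rw [one_mul]
    exact main d

end Pool.Agent.Results.MP_d51b1e_co.LinearAverage
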